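import Pool.Agent.H7.IA.Stmts

/-!
Board `ia`, row CRT: the cliques which meet a set.
-/

set_option autoImplicit false

open Finset

namespace Pool.IA7

open Pool.Agent.H23.KT Pool.Agent.H46.KW Pool.KQ Pool.GT7 Pool.GU7 Pool.HZ7

namespace CRT

theorem choose_le (n k : ℕ) : n.choose k ≤ n ^ k := by
  rw [Nat.choose_eq_descFactorial_div_factorial]
  exact (Nat.div_le_self _ _).trans (Nat.descFactorial_le_pow n k)

theorem card_im {α β : Type} [DecidableEq β] (s : Finset α) (f : α → β) (m : ℕ)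
    (h : s.card ≤ m) : (s.image f).card ≤ m := card_image_le.trans h

/-- a clique with vertices on both sides -/
theorem cover {V : Type} [Fintype V] [DecidableEq V] (G : SimpleGraph V) (S Z : Finset V) (w : ℕ)
    (hw : 1 ≤ w) : clq G univ (w + 3) ⊆
      clq G (univ \ S) (w + 3) ∪ clq G S (w + 3) ∪
      (univ \ S).biUnion (fun q => (clq G (nb G S q) (w + 2)).image (insert q)) ∪
      (S \ Z).biUnion (fun z =>
        ((nb G (univ \ S) z ×ˢ nb G (univ \ S) z) ×ˢ powersetCard w (nb G univ z)).image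
          (fun x => insert z (insert x.1.1 (insert x.1.2 x.2)))) ∪
      Z.biUnion (fun z => (powersetCard (w + 2) (nb G (univ \ S) z)).image (insert z)) ∪
      Z.biUnion (fun z =>
        ((Z ×ˢ (nb G (univ \ S) z ×ˢ nb G (univ \ S) z)) ×ˢ
          powersetCard (w - 1) (Z ∪ nb G (univ \ S) z)).image
          (fun x => insert z (insert x.1.1 (insert x.1.2.1 (insert x.1.2.2 x.2))))) := by
  intro K hK
  obtain ⟨-, hc, hcl⟩ := (mem_clq G).1 hK
  have hadj : ∀ x ∈ K, ∀ y ∈ K, x ≠ y → G.Adj x y := fun x hx y hy hxy =>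
    hcl (mem_coe.2 hx) (mem_coe.2 hy) hxy
  simp only [mem_union]
  by_cases hI : ∃ z ∈ K, z ∈ S
  swap
  · refine Or.inl (Or.inl (Or.inl (Or.inl (Or.inl ((mem_clq G).2 ⟨?_, hc, hcl⟩)))))
    intro x hx
    exact mem_sdiff.2 ⟨mem_univ _, fun h => hI ⟨x, hx, h⟩⟩
  by_cases hT : K ⊆ S
  · exact Or.inl (Or.inl (Or.inl (Or.inl (Or.inr ((mem_clq G).2 ⟨hT, hc, hcl⟩)))))
  obtain ⟨q1, hq1, hq1S⟩ := not_subset.1 hT
  by_cases hT2 : ∃ q2 ∈ K, q2 ∉ S ∧ q2 ≠ q1
  swap
  · refine Or.inl (Or.inl (Or.inl (Or.inr ?_)))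
    rw [mem_biUnion]
    refine ⟨q1, mem_sdiff.2 ⟨mem_univ _, hq1S⟩, mem_image.2 ⟨K.erase q1, (mem_clq G).2 ⟨?_, ?_, ?_⟩,
      insert_erase hq1⟩⟩
    · intro x hx
      rw [mem_erase] at hx
      refine (mem_nb G).2 ⟨?_, hadj q1 hq1 x hx.2 hx.1.symm⟩
      by_contra hxS
      exact hT2 ⟨x, hx.2, hxS, hx.1⟩
    · rw [card_erase_of_mem hq1, hc]
      omega
    · exact hcl.subset (by
        intro y hy
        exact mem_coe.2 (mem_of_mem_erase (mem_coe.1 hy)))
  obtain ⟨q2, hq2, hq2S, hq21⟩ := hT2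
  have hnb : ∀ z ∈ K, z ∈ S → ∀ x ∈ K, x ∉ S → x ∈ nb G (univ \ S) z := by
    intro z hz hzS x hx hxS
    refine (mem_nb G).2 ⟨mem_sdiff.2 ⟨mem_univ _, hxS⟩, hadj z hz x hx ?_⟩
    rintro rfl
    exact hxS hzS
  by_cases hd1 : ∃ z ∈ K, z ∈ S ∧ z ∉ Z
  · obtain ⟨z, hz, hzS, hzZ⟩ := hd1
    have hzq1 : z ≠ q1 := by
      rintro rfl
      exact hq1S hzS
    have hzq2 : z ≠ q2 := by
      rintro rfl
      exact hq2S hzS
    refine Or.inl (Or.inl (Or.inr ?_))
    rw [mem_biUnion]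
    refine ⟨z, mem_sdiff.2 ⟨hzS, hzZ⟩, mem_image.2 ⟨((q1, q2), ((K.erase z).erase q1).erase q2),
      ?_, ?_⟩⟩
    · rw [mem_product, mem_product, mem_powersetCard]
      refine ⟨⟨hnb z hz hzS q1 hq1 hq1S, hnb z hz hzS q2 hq2 hq2S⟩, ?_, ?_⟩
      · intro x hx
        simp only [mem_erase] at hx
        exact (mem_nb G).2 ⟨mem_univ _, hadj z hz x hx.2.2.2 hx.2.2.1.symm⟩
      · rw [card_erase_of_mem, card_erase_of_mem, card_erase_of_mem hz, hc]
        · omega
        · exact mem_erase.2 ⟨hzq1.symm, hq1⟩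
        · exact mem_erase.2 ⟨hq21, mem_erase.2 ⟨hzq2.symm, hq2⟩⟩
    · show insert z (insert q1 (insert q2 (((K.erase z).erase q1).erase q2))) = K
      rw [insert_erase (mem_erase.2 ⟨hq21, mem_erase.2 ⟨hzq2.symm, hq2⟩⟩),
        insert_erase (mem_erase.2 ⟨hzq1.symm, hq1⟩), insert_erase hz]
  have hKZ : ∀ z ∈ K, z ∈ S → z ∈ Z := by
    intro z hz hzS
    by_contra h
    exact hd1 ⟨z, hz, hzS, h⟩
  obtain ⟨z, hz, hzS⟩ := hI
  have hzq1 : z ≠ q1 := by
    rintro rfl
    exact hq1S hzS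
  have hzq2 : z ≠ q2 := by
    rintro rfl
    exact hq2S hzS
  by_cases hz' : ∃ z' ∈ K, z' ∈ S ∧ z' ≠ z
  · obtain ⟨z', hz', hzS', hzz⟩ := hz'
    have hzq1' : z' ≠ q1 := by
      rintro rfl
      exact hq1S hzS'
    have hzq2' : z' ≠ q2 := by
      rintro rfl
      exact hq2S hzS'
    refine Or.inr ?_
    rw [mem_biUnion]
    refine ⟨z, hKZ z hz hzS, mem_image.2 ⟨((z', (q1, q2)),
      (((K.erase z).erase z').erase q1).erase q2), ?_, ?_⟩⟩
    · rw [mem_product, mem_product, mem_product, mem_powersetCard]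
      refine ⟨⟨hKZ z' hz' hzS', hnb z hz hzS q1 hq1 hq1S, hnb z hz hzS q2 hq2 hq2S⟩, ?_, ?_⟩
      · intro x hx
        simp only [mem_erase] at hx
        rw [mem_union]
        by_cases hxS : x ∈ S
        · exact Or.inl (hKZ x hx.2.2.2.2 hxS)
        · exact Or.inr (hnb z hz hzS x hx.2.2.2.2 hxS)
      · rw [card_erase_of_mem, card_erase_of_mem, card_erase_of_mem, card_erase_of_mem hz, hc]
        · omega
        · exact mem_erase.2 ⟨hzz, hz'⟩
        · exact mem_erase.2 ⟨hzq1'.symm, mem_erase.2 ⟨hzq1.symm, hq1⟩⟩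
        · exact mem_erase.2 ⟨hq21, mem_erase.2 ⟨hzq2'.symm, mem_erase.2 ⟨hzq2.symm, hq2⟩⟩⟩
    · show insert z (insert z' (insert q1 (insert q2
        ((((K.erase z).erase z').erase q1).erase q2)))) = K
      rw [insert_erase (mem_erase.2 ⟨hq21, mem_erase.2 ⟨hzq2'.symm,
          mem_erase.2 ⟨hzq2.symm, hq2⟩⟩⟩),
        insert_erase (mem_erase.2 ⟨hzq1'.symm, mem_erase.2 ⟨hzq1.symm, hq1⟩⟩),
        insert_erase (mem_erase.2 ⟨hzz, hz'⟩), insert_erase hz]
  · refine Or.inl (Or.inr ?_)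
    rw [mem_biUnion]
    refine ⟨z, hKZ z hz hzS, mem_image.2 ⟨K.erase z, mem_powersetCard.2 ⟨?_, ?_⟩,
      insert_erase hz⟩⟩
    · intro x hx
      rw [mem_erase] at hx
      refine hnb z hz hzS x hx.2 fun hxS => hz' ⟨x, hx.2, hxS, hx.1⟩
    · rw [card_erase_of_mem hz, hc]
      omega

end CRT

theorem crt_thm : CRTStmt := by
  intro V _ _ G S Z w Δ hw _ hΔ
  constructor
  · have h1 := card_le_card (CRT.cover G S Z w hw)
    rw [← kc_eq] at h1
    refine h1.trans ?_
    refine (card_union_le _ _).trans (Nat.add_le_add ?_ ?_)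
    · refine (card_union_le _ _).trans (Nat.add_le_add ?_ ?_)
      · refine (card_union_le _ _).trans (Nat.add_le_add ?_ ?_)
        · refine (card_union_le _ _).trans (Nat.add_le_add ?_ ?_)
          · exact (card_union_le _ _).trans (le_of_eq rfl)
          · refine card_biUnion_le.trans (sum_le_sum fun q _ => ?_)
            exact CRT.card_im _ _ _ le_rfl
        · refine card_biUnion_le.trans (sum_le_sum fun z _ => ?_)
          refine CRT.card_im _ _ _ ?_
          rw [card_product, card_product, card_powersetCard, ← pow_two]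
          exact Nat.mul_le_mul_left _ ((CRT.choose_le _ _).trans (Nat.pow_le_pow_left (hΔ z) w))
      · refine card_biUnion_le.trans (sum_le_sum fun z _ => ?_)
        refine CRT.card_im _ _ _ ?_
        rw [card_powersetCard]
        exact CRT.choose_le _ _
    · refine card_biUnion_le.trans (sum_le_sum fun z _ => ?_)
      refine CRT.card_im _ _ _ ?_
      rw [card_product, card_product, card_product, card_powersetCard, ← pow_two]
      exact Nat.mul_le_mul_left _ ((CRT.choose_le _ _).trans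
        (Nat.pow_le_pow_left (card_union_le _ _) _))
  · intro hsum
    have hsub : clq G univ (w + 3) ⊆ clq G (univ \ S) (w + 3) ∪ clq G S (w + 3) := by
      intro K hK
      obtain ⟨-, hc, hcl⟩ := (mem_clq G).1 hK
      have hadj : ∀ x ∈ K, ∀ y ∈ K, x ≠ y → G.Adj x y := fun x hx y hy hxy =>
        hcl (mem_coe.2 hx) (mem_coe.2 hy) hxy
      rw [mem_union]
      by_cases hI : ∃ z ∈ K, z ∈ S
      swap
      · refine Or.inl ((mem_clq G).2 ⟨?_, hc, hcl⟩)
        intro x hx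
        exact mem_sdiff.2 ⟨mem_univ _, fun h => hI ⟨x, hx, h⟩⟩
      by_cases hT : K ⊆ S
      · exact Or.inr ((mem_clq G).2 ⟨hT, hc, hcl⟩)
      exfalso
      obtain ⟨y, hy, hyS⟩ := not_subset.1 hT
      obtain ⟨x, hx, hxS⟩ := hI
      have hxy : x ≠ y := by
        rintro rfl
        exact hyS hxS
      have hcard : 1 ≤ ((K.erase x).erase y).card := by
        rw [card_erase_of_mem (mem_erase.2 ⟨hxy.symm, hy⟩), card_erase_of_mem hx, hc]
        omega
      obtain ⟨v, hv⟩ := card_pos.1 hcard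
      simp only [mem_erase] at hv
      obtain ⟨hvy, hvx, hv⟩ := hv
      have hyx : y ∈ nb G (univ \ S) x :=
        (mem_nb G).2 ⟨mem_sdiff.2 ⟨mem_univ _, hyS⟩, hadj x hx y hy hxy⟩
      by_cases hvS : v ∈ S
      · have hyv : y ∈ nb G (univ \ S) v :=
          (mem_nb G).2 ⟨mem_sdiff.2 ⟨mem_univ _, hyS⟩, hadj v hv y hy hvy⟩
        have h1 : ({x, v} : Finset V) ⊆ S := by
          intro u hu
          rw [mem_insert, mem_singleton] at hu
          rcases hu with rfl | rfl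
          · exact hxS
          · exact hvS
        have h2 : ∑ z ∈ ({x, v} : Finset V), (nb G (univ \ S) z).card ≤
            ∑ z ∈ S, (nb G (univ \ S) z).card := sum_le_sum_of_subset h1
        rw [sum_pair hvx.symm] at h2
        have h3 := card_pos.2 ⟨y, hyx⟩
        have h4 := card_pos.2 ⟨y, hyv⟩
        omega
      · have hvx' : v ∈ nb G (univ \ S) x :=
          (mem_nb G).2 ⟨mem_sdiff.2 ⟨mem_univ _, hvS⟩, hadj x hx v hv hvx.symm⟩
        have h1 : 1 < (nb G (univ \ S) x).card := one_lt_card.2 ⟨y, hyx, v, hvx', hvy.symm⟩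
        have h2 : (nb G (univ \ S) x).card ≤ ∑ z ∈ S, (nb G (univ \ S) z).card :=
          single_le_sum (f := fun z => (nb G (univ \ S) z).card) (fun _ _ => Nat.zero_le _) hxS
        omega
    exact (card_le_card hsub).trans (card_union_le _ _)

end Pool.IA7
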